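import Pool.Agent.H.MP_ae49d3_an.A

set_option autoImplicit false

namespace Pool.Agent.Results.MP_ae49d3_an.No

open Filter Topology

theorem result :
    ∃ φ : ℕ → C(unitInterval, ℝ), (∀ n, φ n ≠ 0) ∧
      (∀ m n, m ≠ n → ∫ t, φ m t * φ n t = 0) ∧
      Dense ((Submodule.span ℝ (Set.range φ) : Submodule ℝ C(unitInterval, ℝ)) :
        Set C(unitInterval, ℝ)) ∧
      ∃ f : C(unitInterval, ℝ), ∀ (c : ℕ → ℕ → ℝ) (σ : ℕ → C(unitInterval, ℝ)),
        (∀ m, Tendsto (fun K => ∑ N ∈ Finset.range K, c m N •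
          ∑ n ∈ Finset.range (N + 1), ((∫ t, f t * φ n t) / ∫ t, φ n t ^ 2) • φ n)
          atTop (𝓝 (σ m))) →
        ¬ Tendsto σ atTop (𝓝 f) := by
  obtain ⟨φ, h1, h2, h3, h4⟩ := Pool.Agent.H.MP_ae49d3_an.sys
  refine ⟨φ, h1, h2, h3, 1, fun c σ h5 h6 => ?_⟩
  have ev := (ContinuousMap.evalCLM ℝ (0 : unitInterval) (M := ℝ)).continuous
  have a1 : ∀ m, σ m 0 = 0 := fun m => by
    refine tendsto_nhds_unique ((ev.tendsto _).comp (h5 m)) (tendsto_const_nhds.congr fun K => ?_)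
    simp only [Function.comp, map_sum, map_smul, ContinuousMap.evalCLM_apply, smul_eq_mul]
    refine (Finset.sum_eq_zero fun N _ => ?_).symm
    rw [Finset.sum_eq_zero fun n _ => ?_, mul_zero]
    rcases h4 n with h | h <;> simp [h]
  have a2 := tendsto_nhds_unique ((ev.tendsto _).comp h6)
    (tendsto_const_nhds.congr fun m => (a1 m).symm)
  simp at a2

end Pool.Agent.Results.MP_ae49d3_an.No
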